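import Pool.Agent.H741.RS.Stm2

/-!
# Taylor expansion of kernels
-/

set_option autoImplicit false
open scoped ComplexConjugate

namespace Pool.Agent.H924.RS

open Pool.Agent.H741.RS MvPolynomial

/-- the derivative of a polynomial at `z` in the direction `a` -/
noncomputable def dP {n : ℕ} (P : MvPolynomial (Fin n) ℂ) (z a : V n) : ℂ :=
  ∑ l, ev (pderiv l P) z * a l

theorem ev_add' {n : ℕ} (P Q : MvPolynomial (Fin n) ℂ) (z : V n) : ev (P + Q) z = ev P z + ev Q z := by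
  simp [ev]

theorem ev_mul' {n : ℕ} (P Q : MvPolynomial (Fin n) ℂ) (z : V n) : ev (P * Q) z = ev P z * ev Q z := by
  simp [ev]

theorem ev_X' {n : ℕ} (j : Fin n) (z : V n) : ev (X j) z = z j := by
  simp [ev]

theorem ev_C' {n : ℕ} (c : ℂ) (z : V n) : ev (C c) z = c := by
  simp [ev]

theorem ev_zero' {n : ℕ} (z : V n) : ev (0 : MvPolynomial (Fin n) ℂ) z = 0 := by
  simp [ev]

theorem ev_sum' {n : ℕ} {ι : Type} (s : Finset ι) (f : ι → MvPolynomial (Fin n) ℂ) (z : V n) :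
    ev (∑ i ∈ s, f i) z = ∑ i ∈ s, ev (f i) z := by
  simp [ev]

theorem dP_add {n : ℕ} (P Q : MvPolynomial (Fin n) ℂ) (z a : V n) : dP (P + Q) z a = dP P z a + dP Q z a := by
  unfold dP
  rw [← Finset.sum_add_distrib]
  refine Finset.sum_congr rfl fun l _ => ?_
  rw [map_add, ev_add']
  ring

theorem dP_X_mul {n : ℕ} (P : MvPolynomial (Fin n) ℂ) (j : Fin n) (z a : V n) :
    dP (X j * P) z a = a j * ev P z + z j * dP P z a := by
  unfold dP
  have h : ∀ l, ev (pderiv l (X j * P)) z * a l =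
      (if l = j then a l * ev P z else 0) + z j * (ev (pderiv l P) z * a l) := by
    intro l
    rw [Derivation.leibniz, smul_eq_mul, smul_eq_mul, ev_add', ev_mul', ev_mul', ev_X', pderiv_X]
    by_cases hl : l = j
    · subst hl
      simp [ev]
      ring
    · rw [if_neg hl, Pi.single_eq_of_ne (Ne.symm hl), ev_zero']
      ring
  rw [Finset.sum_congr rfl fun l _ => h l, Finset.sum_add_distrib, ← Finset.mul_sum]
  simp

theorem dP_vadd {n : ℕ} (P : MvPolynomial (Fin n) ℂ) (z a b : V n) : dP P z (a + b) = dP P z a + dP P z b := by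
  unfold dP
  rw [← Finset.sum_add_distrib]
  refine Finset.sum_congr rfl fun l _ => ?_
  rw [PiLp.add_apply]
  ring

theorem dP_vsmul {n : ℕ} (P : MvPolynomial (Fin n) ℂ) (z a : V n) (r : ℝ) :
    dP P z (r • a) = (r : ℂ) * dP P z a := by
  unfold dP
  rw [Finset.mul_sum]
  refine Finset.sum_congr rfl fun l _ => ?_
  rw [PiLp.smul_apply, Complex.real_smul]
  ring

/-- the estimates for a polynomial -/
def Tay {n : ℕ} (i : ℕ) (P : MvPolynomial (Fin n) ℂ) : Prop :=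
  ∃ C : ℝ, 0 ≤ C ∧ ∀ z a : V n, ‖a‖ ≤ 4 * ‖z‖ →
    ‖ev P (z + a)‖ ≤ C * (1 + ‖z‖) ^ i ∧ ‖dP P z a‖ ≤ C * ‖a‖ * (1 + ‖z‖) ^ i ∧
    ‖ev P (z + a) - ev P z‖ ≤ C * ‖a‖ * (1 + ‖z‖) ^ i ∧
    ‖ev P (z + a) - ev P z - dP P z a‖ ≤ C * ‖a‖ ^ 2 * (1 + ‖z‖) ^ i

theorem Tay.mono {n : ℕ} {i j : ℕ} (hij : i ≤ j) {P : MvPolynomial (Fin n) ℂ} (h : Tay i P) : Tay j P := by
  obtain ⟨C, hC, h⟩ := h
  refine ⟨C, hC, fun z a ha => ?_⟩
  obtain ⟨h1, h2, h3, h4⟩ := h z a ha
  have hp : (1 + ‖z‖) ^ i ≤ (1 + ‖z‖) ^ j :=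
    pow_le_pow_right₀ (by linarith [norm_nonneg z]) hij
  refine ⟨h1.trans ?_, h2.trans ?_, h3.trans ?_, h4.trans ?_⟩ <;> gcongr

theorem Tay.add {n : ℕ} {i : ℕ} {P Q : MvPolynomial (Fin n) ℂ} (hP : Tay i P) (hQ : Tay i Q) :
    Tay i (P + Q) := by
  obtain ⟨C, hC, h⟩ := hP
  obtain ⟨D, hD, h'⟩ := hQ
  refine ⟨C + D, by linarith, fun z a ha => ?_⟩
  obtain ⟨h1, h2, h3, h4⟩ := h z a ha
  obtain ⟨k1, k2, k3, k4⟩ := h' z a ha
  rw [ev_add', ev_add', dP_add]
  refine ⟨?_, ?_, ?_, ?_⟩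
  · refine (norm_add_le _ _).trans ?_
    rw [add_mul]
    exact add_le_add h1 k1
  · refine (norm_add_le _ _).trans ?_
    rw [add_mul, add_mul]
    exact add_le_add h2 k2
  · have e : ev P (z + a) + ev Q (z + a) - (ev P z + ev Q z) =
        (ev P (z + a) - ev P z) + (ev Q (z + a) - ev Q z) := by ring
    rw [e]
    refine (norm_add_le _ _).trans ?_
    rw [add_mul, add_mul]
    exact add_le_add h3 k3
  · have e : ev P (z + a) + ev Q (z + a) - (ev P z + ev Q z) - (dP P z a + dP Q z a) =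
        (ev P (z + a) - ev P z - dP P z a) + (ev Q (z + a) - ev Q z - dP Q z a) := by ring
    rw [e]
    refine (norm_add_le _ _).trans ?_
    rw [add_mul, add_mul]
    exact add_le_add h4 k4

theorem tay_C {n : ℕ} (c : ℂ) : Tay 0 (C c : MvPolynomial (Fin n) ℂ) := by
  refine ⟨‖c‖, norm_nonneg _, fun z a _ => ?_⟩
  have h0 : dP (C c) z a = 0 := by
    unfold dP
    refine Finset.sum_eq_zero fun l _ => ?_
    rw [pderiv_C, ev_zero', zero_mul]
  rw [ev_C', ev_C', h0]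
  simp only [pow_zero, mul_one, sub_self, norm_zero]
  refine ⟨le_rfl, by positivity, by positivity, by positivity⟩

theorem tay_X_mul {n : ℕ} {i : ℕ} {P : MvPolynomial (Fin n) ℂ} (j : Fin n) (hP : Tay i P) :
    Tay (i + 1) (X j * P) := by
  obtain ⟨C, hC, h⟩ := hP
  refine ⟨5 * C, by linarith, fun z a ha => ?_⟩
  obtain ⟨h1, h2, h3, h4⟩ := h z a ha
  have h0 : ‖ev P z‖ ≤ C * (1 + ‖z‖) ^ i := by
    have := (h z 0 (by simp)).1
    rwa [add_zero] at this
  have hz0 := norm_nonneg z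
  have ha0 := norm_nonneg a
  have hzj : ‖z j‖ ≤ ‖z‖ := PiLp.norm_apply_le z j
  have haj : ‖a j‖ ≤ ‖a‖ := PiLp.norm_apply_le a j
  have hzaj : ‖(z + a) j‖ ≤ 5 * ‖z‖ := by
    refine (PiLp.norm_apply_le (z + a) j).trans ((norm_add_le _ _).trans ?_)
    linarith
  have hY : 0 ≤ (1 + ‖z‖) ^ i := by positivity
  set Y := (1 + ‖z‖) ^ i with hYd
  have hY1 : (1 + ‖z‖) ^ (i + 1) = Y * (1 + ‖z‖) := pow_succ _ _
  have hCY : 0 ≤ C * Y := mul_nonneg hC hY
  have hCYa : 0 ≤ C * Y * ‖a‖ := mul_nonneg hCY ha0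
  have hCYz : 0 ≤ C * Y * ‖z‖ := mul_nonneg hCY hz0
  have hCYaz : 0 ≤ C * Y * ‖a‖ * ‖z‖ := mul_nonneg hCYa hz0
  rw [ev_mul', ev_mul', ev_X', ev_X', dP_X_mul, hY1]
  refine ⟨?_, ?_, ?_, ?_⟩
  · rw [norm_mul]
    calc ‖(z + a) j‖ * ‖ev P (z + a)‖ ≤ (5 * ‖z‖) * (C * Y) := by gcongr
      _ ≤ 5 * C * (Y * (1 + ‖z‖)) := by nlinarith
  · refine (norm_add_le _ _).trans ?_
    rw [norm_mul, norm_mul]
    calc ‖a j‖ * ‖ev P z‖ + ‖z j‖ * ‖dP P z a‖ ≤ ‖a‖ * (C * Y) + ‖z‖ * (C * ‖a‖ * Y) := by gcongr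
      _ ≤ 5 * C * ‖a‖ * (Y * (1 + ‖z‖)) := by nlinarith
  · have e : (z + a) j * ev P (z + a) - z j * ev P z =
        z j * (ev P (z + a) - ev P z) + a j * ev P (z + a) := by
      rw [PiLp.add_apply]
      ring
    rw [e]
    refine (norm_add_le _ _).trans ?_
    rw [norm_mul, norm_mul]
    calc ‖z j‖ * ‖ev P (z + a) - ev P z‖ + ‖a j‖ * ‖ev P (z + a)‖ ≤
          ‖z‖ * (C * ‖a‖ * Y) + ‖a‖ * (C * Y) := by gcongr
      _ ≤ 5 * C * ‖a‖ * (Y * (1 + ‖z‖)) := by nlinarith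
  · have e : (z + a) j * ev P (z + a) - z j * ev P z - (a j * ev P z + z j * dP P z a) =
        z j * (ev P (z + a) - ev P z - dP P z a) + a j * (ev P (z + a) - ev P z) := by
      rw [PiLp.add_apply]
      ring
    rw [e]
    refine (norm_add_le _ _).trans ?_
    rw [norm_mul, norm_mul]
    have hCYaa : 0 ≤ C * Y * ‖a‖ * ‖a‖ := mul_nonneg hCYa ha0
    have hCYaaz : 0 ≤ C * Y * ‖a‖ * ‖a‖ * ‖z‖ := mul_nonneg hCYaa hz0
    calc ‖z j‖ * ‖ev P (z + a) - ev P z - dP P z a‖ + ‖a j‖ * ‖ev P (z + a) - ev P z‖ ≤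
          ‖z‖ * (C * ‖a‖ ^ 2 * Y) + ‖a‖ * (C * ‖a‖ * Y) := by gcongr
      _ ≤ 5 * C * ‖a‖ ^ 2 * (Y * (1 + ‖z‖)) := by nlinarith

theorem tay_monomial {n : ℕ} (c : ℂ) : ∀ (i : ℕ) (m : Fin n →₀ ℕ), (m.sum fun _ e => e) ≤ i →
    Tay i (monomial m c) := by
  intro i
  induction i with
  | zero =>
    intro m hm
    have hm0 : m = 0 := by
      ext j
      by_contra hj
      have hj' : m j ≠ 0 := hj
      have h1 : m j ≤ m.sum fun _ e => e :=
        Finset.single_le_sum (f := fun j => m j) (fun _ _ => Nat.zero_le _)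
          (Finsupp.mem_support_iff.2 hj')
      omega
    rw [hm0]
    exact tay_C c
  | succ i ih =>
    intro m hm
    by_cases hm0 : m = 0
    · rw [hm0]
      exact (tay_C c).mono (Nat.zero_le _)
    · obtain ⟨j, hj⟩ : ∃ j, m j ≠ 0 := by
        by_contra hcon
        push Not at hcon
        exact hm0 (Finsupp.ext hcon)
      have e : m - Finsupp.single j 1 + Finsupp.single j 1 = m :=
        Finsupp.sub_add_single_one_cancel hj
      have hs : ((m - Finsupp.single j 1).sum fun _ e => e) ≤ i := by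
        have h1 : (m.sum fun _ e => e) = ((m - Finsupp.single j 1).sum fun _ e => e) + 1 := by
          conv_lhs => rw [← e]
          rw [Finsupp.sum_add_index' (fun _ => rfl) (fun _ _ _ => rfl),
            Finsupp.sum_single_index rfl]
        omega
      have h2 := tay_X_mul j (ih _ hs)
      have h3 : (X j * monomial (m - Finsupp.single j 1) c : MvPolynomial (Fin n) ℂ) =
          monomial m c := by
        conv_rhs => rw [← e]
        rw [monomial_add_single, pow_one, mul_comm]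
      rwa [h3] at h2

theorem tay_of {n : ℕ} (i : ℕ) (P : MvPolynomial (Fin n) ℂ) (hP : P.totalDegree ≤ i) : Tay i P := by
  have key : ∀ s : Finset (Fin n →₀ ℕ), s ⊆ P.support →
      Tay i (∑ m ∈ s, monomial m (coeff m P)) := by
    intro s
    induction s using Finset.induction_on with
    | empty =>
      intro _
      rw [Finset.sum_empty, ← C_0]
      exact (tay_C 0).mono (Nat.zero_le _)
    | insert m s hms ih =>
      intro hsub
      rw [Finset.sum_insert hms]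
      refine Tay.add ?_ (ih fun x hx => hsub (Finset.mem_insert_of_mem hx))
      exact tay_monomial _ i m
        ((le_totalDegree (hsub (Finset.mem_insert_self m s))).trans hP)
  have := key P.support (Finset.Subset.refl _)
  rwa [support_sum_monomial_coeff] at this

/-- the derivative of a product kernel -/
noncomputable def LPQ {n : ℕ} (P Q : MvPolynomial (Fin n) ℂ) (z w : V n) : V n × V n →ₗ[ℝ] ℂ where
  toFun x := dP P z x.1 * conj (ev Q w) + ev P z * conj (dP Q w x.2)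
  map_add' x y := by
    rw [Prod.fst_add, Prod.snd_add, dP_vadd, dP_vadd, map_add]
    ring
  map_smul' r x := by
    rw [Prod.smul_fst, Prod.smul_snd, dP_vsmul, dP_vsmul, map_mul, Complex.conj_ofReal,
      RingHom.id_apply, Complex.real_smul]
    ring

theorem lpq_est {n : ℕ} {i j : ℕ} {P Q : MvPolynomial (Fin n) ℂ} (hP : Tay i P) (hQ : Tay j Q) :
    ∃ C : ℝ, 0 ≤ C ∧ ∀ z w a b : V n, ‖a‖ ≤ 4 * ‖z‖ → ‖b‖ ≤ 4 * ‖w‖ →
      ‖ev P (z + a) * conj (ev Q (w + b)) - ev P z * conj (ev Q w) - LPQ P Q z w (a, b)‖ ≤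
        C * (‖a‖ + ‖b‖) ^ 2 * (1 + ‖z‖ + ‖w‖) ^ (i + j) := by
  obtain ⟨C, hC, h⟩ := hP
  obtain ⟨D, hD, h'⟩ := hQ
  refine ⟨C * D, mul_nonneg hC hD, fun z w a b ha hb => ?_⟩
  obtain ⟨h1, h2, h3, h4⟩ := h z a ha
  obtain ⟨k1, k2, k3, k4⟩ := h' w b hb
  have h0 : ‖ev P z‖ ≤ C * (1 + ‖z‖) ^ i := by
    have := (h z 0 (by simp)).1
    rwa [add_zero] at this
  have hz0 := norm_nonneg z
  have hw0 := norm_nonneg w
  have ha0 := norm_nonneg a
  have hb0 := norm_nonneg b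
  have e : ev P (z + a) * conj (ev Q (w + b)) - ev P z * conj (ev Q w) - LPQ P Q z w (a, b) =
      (ev P (z + a) - ev P z - dP P z a) * conj (ev Q (w + b)) +
      ev P z * conj (ev Q (w + b) - ev Q w - dP Q w b) +
      dP P z a * conj (ev Q (w + b) - ev Q w) := by
    show ev P (z + a) * conj (ev Q (w + b)) - ev P z * conj (ev Q w) -
      (dP P z a * conj (ev Q w) + ev P z * conj (dP Q w b)) = _
    rw [map_sub, map_sub]
    ring
  rw [e]
  set Y := (1 + ‖z‖) ^ i with hY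
  set Z := (1 + ‖w‖) ^ j with hZ
  have hY0 : 0 ≤ Y := by positivity
  have hZ0 : 0 ≤ Z := by positivity
  have hYZ : Y * Z ≤ (1 + ‖z‖ + ‖w‖) ^ (i + j) := by
    rw [pow_add]
    have t1 : Y ≤ (1 + ‖z‖ + ‖w‖) ^ i := pow_le_pow_left₀ (by positivity) (by linarith) i
    have t2 : Z ≤ (1 + ‖z‖ + ‖w‖) ^ j := pow_le_pow_left₀ (by positivity) (by linarith) j
    exact mul_le_mul t1 t2 hZ0 (by positivity)
  calc _ ≤ ‖(ev P (z + a) - ev P z - dP P z a) * conj (ev Q (w + b))‖ +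
        ‖ev P z * conj (ev Q (w + b) - ev Q w - dP Q w b)‖ +
        ‖dP P z a * conj (ev Q (w + b) - ev Q w)‖ := norm_add₃_le
    _ = ‖ev P (z + a) - ev P z - dP P z a‖ * ‖ev Q (w + b)‖ +
        ‖ev P z‖ * ‖ev Q (w + b) - ev Q w - dP Q w b‖ +
        ‖dP P z a‖ * ‖ev Q (w + b) - ev Q w‖ := by
        rw [norm_mul, norm_mul, norm_mul, RCLike.norm_conj, RCLike.norm_conj, RCLike.norm_conj]
    _ ≤ (C * ‖a‖ ^ 2 * Y) * (D * Z) + (C * Y) * (D * ‖b‖ ^ 2 * Z) +
        (C * ‖a‖ * Y) * (D * ‖b‖ * Z) := by gcongr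
    _ = C * D * (‖a‖ ^ 2 + ‖b‖ ^ 2 + ‖a‖ * ‖b‖) * (Y * Z) := by ring
    _ ≤ C * D * (‖a‖ + ‖b‖) ^ 2 * (1 + ‖z‖ + ‖w‖) ^ (i + j) := by
        have t3 : ‖a‖ ^ 2 + ‖b‖ ^ 2 + ‖a‖ * ‖b‖ ≤ (‖a‖ + ‖b‖) ^ 2 := by
          nlinarith [mul_nonneg ha0 hb0]
        have t4 : 0 ≤ C * D := mul_nonneg hC hD
        gcongr

/-- the linear form `z ↦ (T z) j` -/
noncomputable def tl {n : ℕ} (T : V n →L[ℂ] V n) (j : Fin n) : MvPolynomial (Fin n) ℂ :=
  ∑ r, C ((T (EuclideanSpace.single r (1 : ℂ))) j) * X r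

theorem ev_tl {n : ℕ} (T : V n →L[ℂ] V n) (j : Fin n) (z : V n) : ev (tl T j) z = (T z) j := by
  have hz : z = ∑ r, z r • (EuclideanSpace.single r (1 : ℂ) : V n) := by
    have := (EuclideanSpace.basisFun (Fin n) ℂ).sum_repr z
    simpa using this.symm
  unfold tl
  rw [ev_sum']
  conv_rhs => rw [hz, map_sum]
  rw [WithLp.ofLp_sum, Finset.sum_apply]
  refine Finset.sum_congr rfl fun r _ => ?_
  rw [ev_mul', ev_C', ev_X', map_smul, PiLp.smul_apply, smul_eq_mul, mul_comm]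

/-- the derivative in the direction `T z` -/
noncomputable def dT {n : ℕ} (T : V n →L[ℂ] V n) (P : MvPolynomial (Fin n) ℂ) :
    MvPolynomial (Fin n) ℂ := ∑ j, pderiv j P * tl T j

theorem ev_dT {n : ℕ} (T : V n →L[ℂ] V n) (P : MvPolynomial (Fin n) ℂ) (z : V n) :
    ev (dT T P) z = dP P z (T z) := by
  unfold dT dP
  rw [ev_sum']
  refine Finset.sum_congr rfl fun j _ => ?_
  rw [ev_mul', ev_tl]

theorem tl_hom {n : ℕ} (T : V n →L[ℂ] V n) (j : Fin n) : (tl T j).IsHomogeneous 1 := by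
  unfold tl
  refine IsHomogeneous.sum _ _ _ fun r _ => ?_
  have := (isHomogeneous_C (Fin n) ((T (EuclideanSpace.single r (1 : ℂ))) j)).mul
    (isHomogeneous_X ℂ r)
  rwa [zero_add] at this

theorem dT_hom {n : ℕ} (T : V n →L[ℂ] V n) {P : MvPolynomial (Fin n) ℂ} {i : ℕ}
    (hP : P.IsHomogeneous i) : (dT T P).IsHomogeneous i := by
  unfold dT
  refine IsHomogeneous.sum _ _ _ fun j _ => ?_
  rcases Nat.eq_zero_or_pos i with h0 | h0
  · subst h0
    have h1 : P.totalDegree = 0 := by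
      have := hP.totalDegree_le
      omega
    rw [totalDegree_eq_zero_iff_eq_C] at h1
    rw [h1, pderiv_C, zero_mul]
    exact isHomogeneous_zero _ _ _
  · have h1 := (hP.pderiv (i := j)).mul (tl_hom T j)
    have h2 : i - 1 + 1 = i := by omega
    rwa [h2] at h1

theorem hker_zero {n : ℕ} (i j : ℕ) : HKer i j (0 : V n → V n → ℂ) :=
  ⟨0, fun _ => 0, fun _ => 0, fun l => l.elim0, fun z w => by simp⟩

/-- the derivative of a homogeneous kernel -/
theorem hk_der {n : ℕ} {i j : ℕ} {v : V n → V n → ℂ} (hv : HKer i j v) :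
    ∃ (L : V n → V n → (V n × V n →ₗ[ℝ] ℂ)) (C : ℝ), 0 ≤ C ∧
      (∀ z w a b : V n, ‖a‖ ≤ 4 * ‖z‖ → ‖b‖ ≤ 4 * ‖w‖ →
        ‖v (z + a) (w + b) - v z w - L z w (a, b)‖ ≤
          C * (‖a‖ + ‖b‖) ^ 2 * (1 + ‖z‖ + ‖w‖) ^ (i + j)) ∧
      (∀ T : V n →L[ℂ] V n, HKer i j (fun z w => L z w (T z, T w))) ∧
      (v = 0 → ∀ z w, L z w = 0) := by
  by_cases h0 : v = 0
  · refine ⟨fun _ _ => 0, 0, le_rfl, fun z w a b _ _ => ?_, fun T => ?_, fun _ _ _ => rfl⟩
    · rw [h0]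
      simp
    · exact hker_zero i j
  obtain ⟨m, p, q, hpq, hvz⟩ := hv
  choose C hC hest using fun l => lpq_est (tay_of i (p l) (hpq l).1.totalDegree_le)
    (tay_of j (q l) (hpq l).2.totalDegree_le)
  refine ⟨fun z w => ∑ l, LPQ (p l) (q l) z w, ∑ l, C l, Finset.sum_nonneg fun l _ => hC l,
    fun z w a b ha hb => ?_, fun T => ?_, fun h => absurd h h0⟩
  · rw [hvz, hvz, LinearMap.sum_apply, ← Finset.sum_sub_distrib, ← Finset.sum_sub_distrib,
      Finset.sum_mul, Finset.sum_mul]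
    exact (norm_sum_le _ _).trans (Finset.sum_le_sum fun l _ => hest l z w a b ha hb)
  · refine ⟨m + m, Fin.append (fun l => dT T (p l)) p, Fin.append q (fun l => dT T (q l)),
      fun l => ?_, fun z w => ?_⟩
    · refine Fin.addCases (fun l => ?_) (fun l => ?_) l
      · rw [Fin.append_left, Fin.append_left]
        exact ⟨dT_hom T (hpq l).1, (hpq l).2⟩
      · rw [Fin.append_right, Fin.append_right]
        exact ⟨(hpq l).1, dT_hom T (hpq l).2⟩
    · show (∑ l, LPQ (p l) (q l) z w) (T z, T w) = _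
      rw [Fin.sum_univ_add, LinearMap.sum_apply, ← Finset.sum_add_distrib]
      refine Finset.sum_congr rfl fun l _ => ?_
      rw [Fin.append_left, Fin.append_left, Fin.append_right, Fin.append_right, ev_dT, ev_dT]
      rfl

/-- **(TAY)** -/
theorem t_TAY : S_TAY := by
  intro n k u hu hk
  obtain ⟨v, hv, h01, h10, h11, huv⟩ := hk
  choose L C hC hest hT hL0 using fun i j => hk_der (hv i j)
  set M : V n → V n → (V n × V n →ₗ[ℝ] ℂ) := fun z w =>
    ∑ i ∈ Finset.range (k + 1), ∑ j ∈ Finset.range (k + 1), L i j z w with hM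
  set K : ℝ := ∑ i ∈ Finset.range (k + 1), ∑ j ∈ Finset.range (k + 1), C i j with hK
  have hK0 : 0 ≤ K := Finset.sum_nonneg fun i _ => Finset.sum_nonneg fun j _ => hC i j
  have hMa : ∀ z w x, M z w x =
      ∑ i ∈ Finset.range (k + 1), ∑ j ∈ Finset.range (k + 1), L i j z w x := by
    intro z w x
    rw [hM]
    simp only [LinearMap.sum_apply]
  have est : ∀ z w a b : V n, ‖a‖ ≤ 4 * ‖z‖ → ‖b‖ ≤ 4 * ‖w‖ →
      ‖u (z + a) (w + b) - u z w - M z w (a, b)‖ ≤
        K * (‖a‖ + ‖b‖) ^ 2 * (1 + ‖z‖ + ‖w‖) ^ (2 * k) := by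
    intro z w a b ha hb
    rw [huv, huv, hMa, ← Finset.sum_sub_distrib, ← Finset.sum_sub_distrib, hK, Finset.sum_mul,
      Finset.sum_mul]
    refine (norm_sum_le _ _).trans (Finset.sum_le_sum fun i hi => ?_)
    rw [← Finset.sum_sub_distrib, ← Finset.sum_sub_distrib, Finset.sum_mul, Finset.sum_mul]
    refine (norm_sum_le _ _).trans (Finset.sum_le_sum fun j hj => ?_)
    refine (hest i j z w a b ha hb).trans ?_
    have hi' : i ≤ k := by
      have := Finset.mem_range.1 hi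
      omega
    have hj' : j ≤ k := by
      have := Finset.mem_range.1 hj
      omega
    have hp : (1 + ‖z‖ + ‖w‖) ^ (i + j) ≤ (1 + ‖z‖ + ‖w‖) ^ (2 * k) :=
      pow_le_pow_right₀ (by linarith [norm_nonneg z, norm_nonneg w]) (by omega)
    have hc := hC i j
    gcongr
  refine ⟨M, K, hK0, est, fun T => ⟨?_, ?_⟩⟩
  · intro z w
    -- uniqueness of the derivative
    show M w z (T w, T z) = conj (M z w (T z, T w))
    by_contra hne
    set δ : ℝ := ‖M w z (T w, T z) - conj (M z w (T z, T w))‖ with hδ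
    have hδ0 : 0 < δ := norm_pos_iff.2 (sub_ne_zero.2 hne)
    set R : ℝ := K * (‖T z‖ + ‖T w‖) ^ 2 * (1 + ‖z‖ + ‖w‖) ^ (2 * k) with hR
    have hR0 : 0 ≤ R := by positivity
    have key : ∀ t : ℝ, 0 < t → t * ‖T‖ ≤ 4 → t * δ ≤ 2 * (R * t ^ 2) := by
      intro t ht htT
      have hta : ∀ x : V n, ‖t • T x‖ ≤ 4 * ‖x‖ := by
        intro x
        rw [norm_smul, Real.norm_eq_abs, abs_of_pos ht]
        calc t * ‖T x‖ ≤ t * (‖T‖ * ‖x‖) := by
              gcongr
              exact T.le_opNorm x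
          _ = (t * ‖T‖) * ‖x‖ := by ring
          _ ≤ 4 * ‖x‖ := by gcongr
      have e1 := est z w (t • T z) (t • T w) (hta z) (hta w)
      have e2 := est w z (t • T w) (t • T z) (hta w) (hta z)
      have hsm1 : M z w (t • T z, t • T w) = (t : ℂ) * M z w (T z, T w) := by
        rw [← Prod.smul_mk, map_smul, Complex.real_smul]
      have hsm2 : M w z (t • T w, t • T z) = (t : ℂ) * M w z (T w, T z) := by
        rw [← Prod.smul_mk, map_smul, Complex.real_smul]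
      rw [hsm1] at e1
      rw [hsm2] at e2
      have hn : ∀ x : V n, ‖t • T x‖ = t * ‖T x‖ := by
        intro x
        rw [norm_smul, Real.norm_eq_abs, abs_of_pos ht]
      rw [hn, hn] at e1 e2
      have r1 : K * (t * ‖T z‖ + t * ‖T w‖) ^ 2 * (1 + ‖z‖ + ‖w‖) ^ (2 * k) = R * t ^ 2 := by
        rw [hR]; ring
      have r2 : K * (t * ‖T w‖ + t * ‖T z‖) ^ 2 * (1 + ‖w‖ + ‖z‖) ^ (2 * k) = R * t ^ 2 := by
        rw [hR, add_right_comm 1 ‖w‖ ‖z‖]; ring
      rw [r1] at e1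
      rw [r2] at e2
      have e3 : ‖conj (u (z + t • T z) (w + t • T w) - u z w - (t : ℂ) * M z w (T z, T w))‖ ≤
          R * t ^ 2 := by
        rw [RCLike.norm_conj]
        exact e1
      rw [map_sub, map_sub, ← hu, ← hu, map_mul, Complex.conj_ofReal] at e3
      have e4 : (t : ℂ) * (M w z (T w, T z) - conj (M z w (T z, T w))) =
          (u (w + t • T w) (z + t • T z) - u w z - (t : ℂ) * conj (M z w (T z, T w))) -
          (u (w + t • T w) (z + t • T z) - u w z - (t : ℂ) * M w z (T w, T z)) := by ring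
      have e5 : t * δ = ‖(t : ℂ) * (M w z (T w, T z) - conj (M z w (T z, T w)))‖ := by
        rw [norm_mul, Complex.norm_real, Real.norm_eq_abs, abs_of_pos ht]
      rw [e5, e4]
      refine (norm_sub_le _ _).trans ?_
      linarith
    -- choose `t` small
    set t : ℝ := min (4 / (‖T‖ + 1)) (δ / (4 * (R + 1))) with ht
    have hT1 : 0 < ‖T‖ + 1 := by positivity
    have ht0 : 0 < t := lt_min (by positivity) (by positivity)
    have ht1 : t * ‖T‖ ≤ 4 := by
      calc t * ‖T‖ ≤ (4 / (‖T‖ + 1)) * ‖T‖ := by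
            gcongr
            exact min_le_left _ _
        _ ≤ 4 := by
            rw [div_mul_eq_mul_div, div_le_iff₀ hT1]
            linarith [norm_nonneg T]
    have h1 := key t ht0 ht1
    have h2 : δ ≤ 2 * (R * t) := by
      have : t * δ ≤ t * (2 * (R * t)) := by
        calc t * δ ≤ 2 * (R * t ^ 2) := h1
          _ = t * (2 * (R * t)) := by ring
      exact le_of_mul_le_mul_left this ht0
    have h3 : t * (4 * (R + 1)) ≤ δ := by
      have : t ≤ δ / (4 * (R + 1)) := min_le_right _ _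
      rwa [le_div_iff₀ (by positivity)] at this
    nlinarith
  · refine ⟨fun i j z w => L i j z w (T z, T w), fun i j => hT i j T, ?_, ?_, ?_, fun z w => ?_⟩
    · funext z w
      show L 0 1 z w (T z, T w) = 0
      rw [hL0 0 1 h01 z w]
      rfl
    · funext z w
      show L 1 0 z w (T z, T w) = 0
      rw [hL0 1 0 h10 z w]
      rfl
    · funext z w
      show L 1 1 z w (T z, T w) = 0
      rw [hL0 1 1 h11 z w]
      rfl
    · exact hMa z w _

end Pool.Agent.H924.RS
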